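import Pool.Agent.H22.AN.TB3
import Pool.Agent.H80.AN.TargetsA

/-! Row FR1 of the board allh (MP_2697e3_an): from the frame of a pinched cell to the frame of the
optimal plane. -/

namespace Pool.Agent.H38.AN

open MeasureTheory Metric Set Filter Topology Pool.Agent.H87.SN Pool.Agent.H87.SH Pool.Agent.H87.AX
  Pool.Agent.H22.AN
open scoped ContDiff RealInnerProductSpace ENNReal

noncomputable section

/-- the foot of `x₀` in the plane -/
theorem dl_foot {d : ℕ} {a ν₁ ν₂ c : V d} (h1 : ⟪c - a, ν₁⟫ = 0) (h2 : ⟪c - a, ν₂⟫ = 0) (x : V d) :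
    dl c ν₁ ν₂ x = dl a ν₁ ν₂ x := by
  have e1 : x - a = (x - c) + (c - a) := by abel
  unfold dl
  rw [e1, inner_add_left, inner_add_left, h1, h2, add_zero, add_zero]

theorem dl_nonneg {d : ℕ} (a ν₁ ν₂ x : V d) : 0 ≤ dl a ν₁ ν₂ x := by
  unfold dl
  positivity

theorem rho_nonneg {d : ℕ} (x : V d) : 0 ≤ rho x := Real.sqrt_nonneg _

theorem rho_le_norm {d : ℕ} (x : V d) : rho x ≤ ‖x‖ := by
  rw [EuclideanSpace.norm_eq]
  unfold rho
  apply Real.sqrt_le_sqrt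
  have h1 : x 0 ^ 2 = ‖x 0‖ ^ 2 := by rw [Real.norm_eq_abs, sq_abs]
  have h2 : x 1 ^ 2 = ‖x 1‖ ^ 2 := by rw [Real.norm_eq_abs, sq_abs]
  rw [h1, h2, Fin.sum_univ_succ, Fin.sum_univ_succ]
  have h3 : 0 ≤ ∑ i : Fin d, ‖x i.succ.succ‖ ^ 2 := Finset.sum_nonneg fun i _ => by positivity
  have h4 : (Fin.succ (0 : Fin (d + 1)) : Fin (d + 2)) = 1 := rfl
  rw [h4]
  linarith

theorem rho_continuous {d : ℕ} : Continuous (fun x : V d => rho x) := by
  unfold rho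
  fun_prop

theorem nk_arith {ρ X s C κ r₁ δ e : ℝ} (hs : s = ρ / 2) (hX : |s - X| ≤ C * κ) (h1 : C * κ ≤ r₁ / 8)
    (h2 : κ ≤ r₁ / 8) (h3 : κ ≤ δ / 4) (h0 : 0 < κ) (hr : r₁ ≤ ρ) (hr1 : 0 < r₁) :
    κ ≤ X ∧ (0 ≤ e → X * Real.sqrt e ≤ κ → ρ ^ 2 * ((1 / 2) ^ 2 * e) ≤ δ ^ 2) := by
  have h4 := abs_le.1 hX
  have hXr : r₁ / 8 ≤ X := by linarith [h4.1, h4.2]
  refine ⟨by linarith, fun he hk => ?_⟩
  have h5 : s ≤ 2 * X := by linarith [h4.2]
  have hs0 : 0 ≤ s := by rw [hs]; linarith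
  have hX0 : 0 ≤ X := by linarith
  have h6 : ρ ^ 2 * ((1 / 2) ^ 2 * e) = s ^ 2 * e := by rw [hs]; ring
  rw [h6]
  have h7 : s ^ 2 ≤ (2 * X) ^ 2 := pow_le_pow_left₀ hs0 h5 2
  have h8 : (X * Real.sqrt e) ^ 2 ≤ κ ^ 2 :=
    pow_le_pow_left₀ (mul_nonneg hX0 (Real.sqrt_nonneg _)) hk 2
  have h9 : (X * Real.sqrt e) ^ 2 = X ^ 2 * e := by rw [mul_pow, Real.sq_sqrt he]
  have h10 : κ ^ 2 ≤ (δ / 4) ^ 2 := pow_le_pow_left₀ h0.le h3 2
  calc s ^ 2 * e ≤ (2 * X) ^ 2 * e := mul_le_mul_of_nonneg_right h7 he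
    _ = 4 * (X ^ 2 * e) := by ring
    _ ≤ 4 * (δ / 4) ^ 2 := by rw [← h9]; linarith
    _ ≤ δ ^ 2 := by nlinarith

/-- From the frame of a pinched cell to the frame of the optimal plane. -/
theorem pf_FR1 (hFRA : T_FRA) (hISO : T_ISO) (hNEA : T_NEA) (hZMU : T_ZMU) (hZOM : T_ZOM)
    (hMUF : T_MUF) : T_FR1 := by
  intro d m L Λ ε e₀ r₁ δ v hd hL hΛ hε he₀ hr₁ hδ hv
  obtain ⟨C, hC, hN⟩ := hNEA d
  -- the small number
  obtain ⟨κ, hκ0, hk1, hk2, hk3, hk4, hk5, hk6⟩ : ∃ κ : ℝ, 0 < κ ∧ C * κ ≤ r₁ / 8 ∧ κ ≤ r₁ / 8 ∧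
      κ ≤ δ / 4 ∧ 2 ^ (d + 2) * κ ≤ v ∧ C * κ ≤ 1 / 64 ∧ C * κ ≤ 1 := by
    have hC0 : 0 < C := by linarith
    refine ⟨min (min (r₁ / 8 / C) (δ / 4)) (min (v / 2 ^ (d + 2)) (1 / 64 / C)), ?_, ?_, ?_, ?_, ?_,
      ?_, ?_⟩
    · positivity
    · calc C * min (min (r₁ / 8 / C) (δ / 4)) (min (v / 2 ^ (d + 2)) (1 / 64 / C))
          ≤ C * (r₁ / 8 / C) := by
            apply mul_le_mul_of_nonneg_left _ hC0.le
            exact (min_le_left _ _).trans (min_le_left _ _)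
        _ = r₁ / 8 := by field_simp
    · refine ((min_le_left _ _).trans (min_le_left _ _)).trans ?_
      exact div_le_self (by positivity) hC
    · exact (min_le_left _ _).trans (min_le_right _ _)
    · calc 2 ^ (d + 2) * min (min (r₁ / 8 / C) (δ / 4)) (min (v / 2 ^ (d + 2)) (1 / 64 / C))
          ≤ 2 ^ (d + 2) * (v / 2 ^ (d + 2)) := by
            apply mul_le_mul_of_nonneg_left _ (by positivity)
            exact (min_le_right _ _).trans (min_le_left _ _)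
        _ = v := by field_simp
    · calc C * min (min (r₁ / 8 / C) (δ / 4)) (min (v / 2 ^ (d + 2)) (1 / 64 / C))
          ≤ C * (1 / 64 / C) := by
            apply mul_le_mul_of_nonneg_left _ hC0.le
            exact (min_le_right _ _).trans (min_le_right _ _)
        _ = 1 / 64 := by field_simp
    · calc C * min (min (r₁ / 8 / C) (δ / 4)) (min (v / 2 ^ (d + 2)) (1 / 64 / C))
          ≤ C * (1 / 64 / C) := by
            apply mul_le_mul_of_nonneg_left _ hC0.le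
            exact (min_le_right _ _).trans (min_le_right _ _)
        _ = 1 / 64 := by field_simp
        _ ≤ 1 := by norm_num
  obtain ⟨K, om, hom, hF⟩ := hFRA d m L Λ ε e₀ κ hd hL hΛ hε he₀ hκ0
  refine ⟨K, om, hom, fun U u G hSM x₀ hFr η hη => ?_⟩
  obtain ⟨hA, hB⟩ := hF U u G hSM x₀ hFr
  obtain ⟨a, ν₁, ν₂, hON, hz1, hz2, ha1, ha2, hint, hopt⟩ := hB η hη
  have hN' := hN a ν₁ ν₂ κ hON hκ0.le hk6 hz1 hz2 ha1 ha2
  obtain ⟨g, hg0, hg1, hgd⟩ := hISO d ν₁ ν₂ hON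
  obtain ⟨n1, n2, n12⟩ := hON
  have n11 : ⟪ν₁, ν₁⟫ = (1 : ℝ) := by rw [real_inner_self_eq_norm_sq, n1]; norm_num
  have n22 : ⟪ν₂, ν₂⟫ = (1 : ℝ) := by rw [real_inner_self_eq_norm_sq, n2]; norm_num
  have n21 : ⟪ν₂, ν₁⟫ = (0 : ℝ) := by rw [real_inner_comm]; exact n12
  -- the numbers
  set α₁ : ℝ := ⟪x₀ - a, ν₁⟫ with hα₁
  set α₂ : ℝ := ⟪x₀ - a, ν₂⟫ with hα₂
  set c : V d := x₀ - (α₁ • ν₁ + α₂ • ν₂) with hc
  have hca : c - a = (x₀ - a) - (α₁ • ν₁ + α₂ • ν₂) := by rw [hc]; abel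
  have hc1 : ⟪c - a, ν₁⟫ = (0 : ℝ) := by
    rw [hca, inner_sub_left, inner_add_left, real_inner_smul_left, real_inner_smul_left, n11, n21,
      ← hα₁]
    ring
  have hc2 : ⟪c - a, ν₂⟫ = (0 : ℝ) := by
    rw [hca, inner_sub_left, inner_add_left, real_inner_smul_left, real_inner_smul_left, n12, n22,
      ← hα₂]
    ring
  have hdl : ∀ x : V d, dl c ν₁ ν₂ x = dl a ν₁ ν₂ x := dl_foot hc1 hc2
  have hx0 := hFr.x0
  have hdx : dl a ν₁ ν₂ x₀ = α₁ ^ 2 + α₂ ^ 2 := rfl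
  have hx02 : x₀ ∈ ball (0 : V d) 2 := by
    rw [mem_ball_zero_iff]; linarith
  have hsq : Real.sqrt (α₁ ^ 2 + α₂ ^ 2) ≤ 1 / 32 := by
    have h1 := (abs_le.1 (hN' x₀ hx02)).2
    rw [hdx] at h1
    have h2 := rho_le_norm x₀
    linarith
  have hnv : ‖α₁ • ν₁ + α₂ • ν₂‖ = Real.sqrt (α₁ ^ 2 + α₂ ^ 2) := by
    rw [eq_comm, Real.sqrt_eq_iff_mul_self_eq (by positivity) (norm_nonneg _)]
    rw [← real_inner_self_eq_norm_mul_norm, inner_add_left, inner_add_right, inner_add_right,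
      real_inner_smul_left, real_inner_smul_left, real_inner_smul_left, real_inner_smul_left,
      real_inner_smul_right, real_inner_smul_right, real_inner_smul_right, real_inner_smul_right,
      n11, n12, n21, n22]
    ring
  have hcn : ‖c‖ ≤ 1 / 16 := by
    have h1 : ‖c‖ ≤ ‖x₀‖ + ‖α₁ • ν₁ + α₂ • ν₂‖ := by rw [hc]; exact norm_sub_le _ _
    rw [hnv] at h1
    linarith
  -- the point
  set x₁ : V d := (2 * α₁) • bv 0 + (2 * α₂) • bv 1 with hx₁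
  have hgx : g x₁ = (2 : ℝ) • (α₁ • ν₁ + α₂ • ν₂) := by
    rw [hx₁, map_add, LinearIsometryEquiv.map_smul, LinearIsometryEquiv.map_smul, hg0, hg1, smul_add,
      smul_smul, smul_smul]
  have hzx : zm c (1 / 2) g x₁ = x₀ := by
    unfold zm
    rw [hgx, smul_smul, hc]
    norm_num
  have hx10 : x₁ 0 = 2 * α₁ := by
    rw [hx₁]
    simp [bv]
  have hx11 : x₁ 1 = 2 * α₂ := by
    rw [hx₁]
    simp [bv]
  have hx1z : zp x₁ = 0 := by
    ext i
    have h0 : (i.succ.succ : Fin (d + 2)) ≠ 0 := Fin.succ_ne_zero _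
    have h1 : (i.succ.succ : Fin (d + 2)) ≠ 1 := by
      intro h
      have := congrArg Fin.val h
      simp at this
    rw [hx₁]
    simp [zp, bv, h1]
  have hrx : rho x₁ = 2 * Real.sqrt (α₁ ^ 2 + α₂ ^ 2) := by
    unfold rho
    rw [hx10, hx11]
    have : (2 * α₁) ^ 2 + (2 * α₂) ^ 2 = 2 ^ 2 * (α₁ ^ 2 + α₂ ^ 2) := by ring
    rw [this, Real.sqrt_mul (by norm_num), Real.sqrt_sq (by norm_num)]
  have hx1n : ‖x₁‖ ≤ 1 / 16 := by
    rw [← g.norm_map x₁, hgx, norm_smul, hnv]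
    rw [Real.norm_of_nonneg (by norm_num)]
    linarith
  -- the zoom
  have hball : ball c (2 * (1 / 2)) ⊆ ball (0 : V d) 2 := by
    apply ball_subset_ball'
    rw [dist_zero_right]
    linarith
  obtain ⟨hZ, hZe⟩ := hZOM d m L Λ ε U u G hSM c (1 / 2) g (by norm_num) hball
  obtain ⟨hz1, hz2, hz3, hz4, hz5, hz6⟩ := hZMU d m G c (1 / 2) g hSM.gd.memG (by norm_num) hball
  -- second moments
  have hV : ENNReal.ofReal (V2 (zG c (1 / 2) g G) 1) ≤ ENNReal.ofReal (2 ^ (d + 2)) *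
      ∫⁻ y in ball (0 : V d) (5 / 8), ENNReal.ofReal (dl a ν₁ ν₂ y) ∂(mu G) := by
    obtain ⟨-, -, -, -, hm5, -⟩ := hMUF d m (zG c (1 / 2) g G) hz1
    have hs1 : ball (0 : V d) 1 ⊆ ball 0 2 := ball_subset_ball (by norm_num)
    have e1 := (hm5 (fun x => rho x ^ 2) (ball 0 1) 1 (rho_continuous.pow 2).measurable
      measurableSet_ball hs1 (fun x hx => ⟨by positivity, by
        rw [mem_ball_zero_iff] at hx
        have h1 := rho_le_norm x
        have h2 := rho_nonneg x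
        nlinarith⟩)).2
    have e2 : V2 (zG c (1 / 2) g G) 1 = ∫ x in ball (0 : V d) 1,
      rho x ^ 2 * nsq (zG c (1 / 2) g G x) := rfl
    rw [e2, ← e1]
    have hmdl : Measurable (fun X : V d => ENNReal.ofReal (4 * dl c ν₁ ν₂ X)) := by
      apply Measurable.ennreal_ofReal
      unfold dl
      fun_prop
    have e3 := hz2 (fun X => ENNReal.ofReal (4 * dl c ν₁ ν₂ X)) (ball 0 1) hmdl
      measurableSet_ball hs1
    have e4 : ∀ y : V d, ENNReal.ofReal (4 * dl c ν₁ ν₂ (zm c (1 / 2) g y)) =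
        ENNReal.ofReal (rho y ^ 2) := by
      intro y
      rw [hgd c (1 / 2) y]
      congr 1
      ring
    simp only [e4] at e3
    rw [e3, hz4 0 1]
    have e5 : zm c (1 / 2) g 0 = c := by
      unfold zm
      simp
    rw [e5]
    have e6 : ball c (1 / 2 * 1) ⊆ ball (0 : V d) (5 / 8) := by
      apply ball_subset_ball'
      rw [dist_zero_right]
      linarith
    have e7 : (∫⁻ x in ball c (1 / 2 * 1), ENNReal.ofReal (4 * dl c ν₁ ν₂ x) ∂(mu G)) ≤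
        ENNReal.ofReal 4 * ∫⁻ y in ball (0 : V d) (5 / 8), ENNReal.ofReal (dl a ν₁ ν₂ y)
          ∂(mu G) := by
      have e8 : ∀ x : V d, ENNReal.ofReal (4 * dl c ν₁ ν₂ x) =
          ENNReal.ofReal 4 * ENNReal.ofReal (dl a ν₁ ν₂ x) := by
        intro x
        rw [hdl x, ENNReal.ofReal_mul (by norm_num)]
      simp only [e8]
      rw [lintegral_const_mul' _ _ ENNReal.ofReal_ne_top]
      gcongr
    calc ENNReal.ofReal (((1 / 2 : ℝ) ^ d)⁻¹) * (∫⁻ x in ball c (1 / 2 * 1),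
        ENNReal.ofReal (4 * dl c ν₁ ν₂ x) ∂(mu G))
        ≤ ENNReal.ofReal (((1 / 2 : ℝ) ^ d)⁻¹) * (ENNReal.ofReal 4 *
          ∫⁻ y in ball (0 : V d) (5 / 8), ENNReal.ofReal (dl a ν₁ ν₂ y) ∂(mu G)) := by gcongr
      _ = _ := by
        rw [← mul_assoc, ← ENNReal.ofReal_mul (by positivity)]
        congr 2
        rw [one_div, inv_pow, inv_inv, pow_add]
        norm_num
  refine ⟨c, g, x₁, hcn, hzx.symm, ⟨hZ, ?_, ?_, hx1z, ?_, ?_⟩, ?_⟩
  · -- the neck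
    intro x hx hrx'
    have hx' := mem_ball_zero_iff.1 hx
    have hXn : ‖zm c (1 / 2) g x‖ < 5 / 8 := by
      unfold zm
      have h1 : ‖c + (1 / 2 : ℝ) • g x‖ ≤ ‖c‖ + ‖(1 / 2 : ℝ) • g x‖ := norm_add_le _ _
      rw [norm_smul, g.norm_map, Real.norm_of_nonneg (by norm_num)] at h1
      linarith
    have hX2 : zm c (1 / 2) g x ∈ ball (0 : V d) 2 := by
      rw [mem_ball_zero_iff]; linarith
    have hX5 : zm c (1 / 2) g x ∈ ball (0 : V d) (5 / 8) := by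
      rw [mem_ball_zero_iff]; exact hXn
    have hs : Real.sqrt (dl a ν₁ ν₂ (zm c (1 / 2) g x)) = rho x / 2 := by
      rw [← hdl, hgd c (1 / 2) x]
      have : (1 / 2 : ℝ) ^ 2 * rho x ^ 2 = (rho x / 2) ^ 2 := by ring
      rw [this, Real.sqrt_sq (by have := rho_nonneg x; linarith)]
    obtain ⟨a1, a2⟩ := nk_arith (e := en u (zm c (1 / 2) g x)) hs (hN' _ hX2) hk1 hk2 hk3 hκ0 hrx'
      hr₁
    obtain ⟨b1, b2⟩ := hA _ hX5 a1
    have hxU : x ∈ ball (0 : V d) 2 ∩ zm c (1 / 2) g ⁻¹' U :=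
      ⟨ball_subset_ball (by norm_num) hx, b1⟩
    refine ⟨hxU, ?_⟩
    rw [(hZe x hxU).1]
    refine a2 ?_ b2
    unfold en nsq
    positivity
  · -- the second moment is small
    have h1 : ENNReal.ofReal (V2 (zG c (1 / 2) g G) 1) ≤ ENNReal.ofReal v := by
      refine hV.trans ?_
      refine (mul_le_mul_right hint _).trans ?_
      rw [← ENNReal.ofReal_mul (by positivity)]
      exact ENNReal.ofReal_le_ofReal hk4
    exact (ENNReal.ofReal_le_ofReal_iff hv.le).1 h1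
  · rw [hrx]; linarith
  · have hb : ball x₁ (1 / 32) ⊆ ball (0 : V d) 2 := by
      apply ball_subset_ball'
      rw [dist_zero_right]
      linarith
    rw [hz5 x₁ (1 / 32) (by norm_num) hb, hzx]
    have : (1 / 2 : ℝ) * (1 / 32) = 1 / 64 := by norm_num
    rw [this]
    exact hFr.ch
  · intro x hx
    exact hV.trans (hopt x hx)

end

end Pool.Agent.H38.AN
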